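import Pool.Agent.Helper24.FP.Unif

/-!
# MP_5e7086_an: Lipschitz free `p`-spaces by their universal property

Bridge from the universal property of `F_p(M)` (with a base point) to the formula for the `p`-norm on
mass-zero measures used in `Pool.Agent.S04810`.
-/

set_option autoImplicit false

open Filter Topology Set

universe u v

namespace Pool.Agent.Helper24.FP

/-- `N` is a `p`-norm on the real vector space `X`. -/
structure PNorm (p : ℝ) {X : Type u} [AddCommGroup X] [Module ℝ X] (N : X → ℝ) : Prop where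
  nonneg : ∀ x, 0 ≤ N x
  zero : ∀ x, N x = 0 ↔ x = 0
  smul : ∀ (c : ℝ) (x : X), N (c • x) = |c| * N x
  add : ∀ x y, N (x + y) ^ p ≤ N x ^ p + N y ^ p

/-- Every Cauchy sequence for `N` converges. -/
def Complete {X : Type u} [AddCommGroup X] (N : X → ℝ) : Prop :=
  ∀ s : ℕ → X, (∀ ε > 0, ∃ K : ℕ, ∀ m ≥ K, ∀ n ≥ K, N (s m - s n) < ε) →
    ∃ z, Tendsto (fun n => N (s n - z)) atTop (𝓝 0)

theorem exists_compl {V : Type u} [AddCommGroup V] [Module ℝ V] (p : ℝ) (hp : 0 < p) (q : V → ℝ)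
    (hadd : ∀ x y, q (x + y) ≤ q x + q y)
    (hsmul : ∀ (c : ℝ) x, q (c • x) = |c| ^ p * q x) :
    ∃ (C : Type u) (_ : AddCommGroup C) (_ : Module ℝ C) (N' : C → ℝ) (j : V →ₗ[ℝ] C),
      PNorm p N' ∧ Complete N' ∧ ∀ x, N' (j x) ^ p = q x := by
  have hq0 : q 0 = 0 := by
    have := hsmul 0 0
    rwa [zero_smul, abs_zero, Real.zero_rpow hp.ne', zero_mul] at this
  have hqn : ∀ x, q (-x) = q x := fun x => by
    have := hsmul (-1) x
    rwa [neg_smul, one_smul, abs_neg, abs_one, Real.one_rpow, one_mul] at this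
  let s : AddGroupSeminorm V :=
    { toFun := q, map_zero' := hq0, add_le' := hadd, neg' := hqn }
  let _ : SeminormedAddCommGroup V := s.toSeminormedAddCommGroup
  have hn : ∀ x : V, ‖x‖ = q x := fun x => rfl
  have hns : ∀ (c : ℝ) (x : V), ‖c • x‖ = |c| ^ p * ‖x‖ := fun c x => hsmul c x
  have hU : UniformContinuousConstSMul ℝ V := by
    refine ⟨fun c => ?_⟩
    refine (LipschitzWith.of_dist_le_mul (K := ⟨|c| ^ p, by positivity⟩) fun x y => ?_).uniformContinuous
    rw [dist_eq_norm, dist_eq_norm, ← smul_sub, hns]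
    rfl
  have hnc : ∀ (c : ℝ) (y : UniformSpace.Completion V), ‖c • y‖ = |c| ^ p * ‖y‖ := by
    intro c y
    refine UniformSpace.Completion.induction_on y (isClosed_eq ?_ ?_) (fun x => ?_)
    · exact continuous_norm.comp (continuous_const_smul c)
    · exact continuous_const.mul continuous_norm
    · rw [← UniformSpace.Completion.coe_smul, UniformSpace.Completion.norm_coe,
        UniformSpace.Completion.norm_coe, hns]
  have hp' : 0 < 1 / p := by positivity
  refine ⟨UniformSpace.Completion V, inferInstance, inferInstance, fun y => ‖y‖ ^ (1 / p),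
    { toFun := fun x => (x : UniformSpace.Completion V)
      map_add' := fun x y => UniformSpace.Completion.coe_add x y
      map_smul' := fun c x => UniformSpace.Completion.coe_smul c x }, ⟨?_, ?_, ?_, ?_⟩, ?_, ?_⟩
  · intro x
    positivity
  · intro x
    rw [Real.rpow_eq_zero (norm_nonneg _) hp'.ne', norm_eq_zero]
  · intro c x
    show ‖c • x‖ ^ (1 / p) = |c| * ‖x‖ ^ (1 / p)
    rw [hnc, Real.mul_rpow (by positivity) (norm_nonneg _), ← Real.rpow_mul (abs_nonneg _),
      mul_one_div_cancel hp.ne', Real.rpow_one]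
  · intro x y
    show (‖x + y‖ ^ (1 / p)) ^ p ≤ (‖x‖ ^ (1 / p)) ^ p + (‖y‖ ^ (1 / p)) ^ p
    rw [← Real.rpow_mul (norm_nonneg _), ← Real.rpow_mul (norm_nonneg _),
      ← Real.rpow_mul (norm_nonneg _), one_div_mul_cancel hp.ne', Real.rpow_one, Real.rpow_one,
      Real.rpow_one]
    exact norm_add_le _ _
  · intro s hs
    have hc : CauchySeq s := by
      rw [Metric.cauchySeq_iff]
      intro ε hε
      obtain ⟨K, hK⟩ := hs (ε ^ (1 / p)) (by positivity)
      refine ⟨K, fun m hm n hn' => ?_⟩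
      rw [dist_eq_norm]
      exact (Real.rpow_lt_rpow_iff (norm_nonneg _) hε.le hp').1 (hK m hm n hn')
    obtain ⟨z, hz⟩ := cauchySeq_tendsto_of_complete hc
    refine ⟨z, ?_⟩
    have h1 := (tendsto_iff_norm_sub_tendsto_zero.1 hz).rpow_const (p := 1 / p) (Or.inr hp'.le)
    rwa [Real.zero_rpow hp'.ne'] at h1
  · intro x
    show (‖(x : UniformSpace.Completion V)‖ ^ (1 / p)) ^ p = q x
    rw [← Real.rpow_mul (norm_nonneg _), one_div_mul_cancel hp.ne', Real.rpow_one,
      UniformSpace.Completion.norm_coe, hn]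

/-! ### Costs -/

/-- The costs of the representations of `μ` by molecules. -/
def Cost (p : ℝ) {M : Type u} [MetricSpace M] (μ : M →₀ ℝ) : Set ℝ :=
  {t : ℝ | ∃ (n : ℕ) (b : Fin n → ℝ) (u v : Fin n → M),
    μ = ∑ j, b j • (Finsupp.single (u j) (1:ℝ) - Finsupp.single (v j) (1:ℝ)) ∧
    t = ∑ j, |b j| ^ p * dist (u j) (v j) ^ p}

section cost

variable {p : ℝ} {M : Type u} [MetricSpace M]

theorem cost_nonneg {μ : M →₀ ℝ} {t : ℝ} (h : t ∈ Cost p μ) : 0 ≤ t := by
  obtain ⟨n, b, u, v, -, rfl⟩ := h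
  exact Finset.sum_nonneg fun j _ => by positivity

theorem cost_bdd (μ : M →₀ ℝ) : BddBelow (Cost p μ) := ⟨0, fun _ h => cost_nonneg h⟩

theorem cost_zero : (0 : ℝ) ∈ Cost p (0 : M →₀ ℝ) :=
  ⟨0, fun _ => 0, Fin.elim0, Fin.elim0, by simp, by simp⟩

theorem cost_add {μ ν : M →₀ ℝ} {s t : ℝ} (hs : s ∈ Cost p μ) (ht : t ∈ Cost p ν) :
    s + t ∈ Cost p (μ + ν) := by
  obtain ⟨m, b, u, v, rfl, rfl⟩ := hs
  obtain ⟨n, b', u', v', rfl, rfl⟩ := ht
  refine ⟨m + n, Fin.append b b', Fin.append u u', Fin.append v v', ?_, ?_⟩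
  · rw [Fin.sum_univ_add]
    simp only [Fin.append_left, Fin.append_right]
  · rw [Fin.sum_univ_add]
    simp only [Fin.append_left, Fin.append_right]

theorem cost_smul {μ : M →₀ ℝ} {t : ℝ} (c : ℝ) (ht : t ∈ Cost p μ) :
    |c| ^ p * t ∈ Cost p (c • μ) := by
  obtain ⟨n, b, u, v, rfl, rfl⟩ := ht
  refine ⟨n, fun j => c * b j, u, v, ?_, ?_⟩
  · rw [Finset.smul_sum]
    simp only [smul_smul]
  · rw [Finset.mul_sum]
    refine Finset.sum_congr rfl fun j _ => ?_
    rw [abs_mul, Real.mul_rpow (abs_nonneg _) (abs_nonneg _)]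
    ring

/-- The mass is moved to the base point. -/
noncomputable def pz (o : M) : (M →₀ ℝ) →ₗ[ℝ] (M →₀ ℝ) :=
  Finsupp.linearCombination ℝ fun x => Finsupp.single x (1:ℝ) - Finsupp.single o (1:ℝ)

theorem cost_nonempty (o : M) (μ : M →₀ ℝ) : (Cost p (pz o μ)).Nonempty := by
  classical
  refine ⟨_, μ.support.card, fun j => μ (μ.support.equivFin.symm j),
    fun j => μ.support.equivFin.symm j, fun _ => o, ?_, rfl⟩
  unfold pz
  rw [Finsupp.linearCombination_apply, Finsupp.sum, ← Finset.sum_coe_sort]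
  exact (Equiv.sum_comp μ.support.equivFin.symm
    (fun x : μ.support => μ x • (Finsupp.single (x : M) (1:ℝ) - Finsupp.single o (1:ℝ)))).symm

theorem pz_of_mass {o : M} {μ : M →₀ ℝ} (h : μ.sum (fun _ a => a) = 0) : pz o μ = μ := by
  unfold pz
  rw [Finsupp.linearCombination_apply]
  simp only [smul_sub]
  rw [Finsupp.sum_sub]
  have h1 : (μ.sum fun x a => a • Finsupp.single o (1:ℝ)) = 0 := by
    rw [Finsupp.sum, ← Finset.sum_smul]
    have h2 : ∑ i ∈ μ.support, μ i = 0 := h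
    rw [h2, zero_smul]
  rw [h1, sub_zero]
  simp only [Finsupp.smul_single, smul_eq_mul, mul_one]
  exact Finsupp.sum_single μ

theorem mass_pz (o : M) (μ : M →₀ ℝ) : (pz o μ).sum (fun _ a => a) = 0 := by
  have key : ∀ ν : M →₀ ℝ, ν.sum (fun _ a => a) = Finsupp.linearCombination ℝ (fun _ : M => (1:ℝ)) ν := by
    intro ν
    rw [Finsupp.linearCombination_apply]
    simp
  have h0 : (Finsupp.linearCombination ℝ (fun _ : M => (1:ℝ))).comp (pz o) = 0 := by
    ext x
    simp [pz]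
  rw [key]
  exact LinearMap.congr_fun h0 μ

/-- The infimum of the costs. -/
noncomputable def q (p : ℝ) (o : M) (μ : M →₀ ℝ) : ℝ := sInf (Cost p (pz o μ))

theorem q_nonneg (o : M) (μ : M →₀ ℝ) : 0 ≤ q p o μ :=
  Real.sInf_nonneg fun _ h => cost_nonneg h

theorem q_add (o : M) (μ ν : M →₀ ℝ) : q p o (μ + ν) ≤ q p o μ + q p o ν := by
  refine le_of_forall_pos_le_add fun ε hε => ?_
  obtain ⟨s, hs, hs'⟩ := Real.lt_sInf_add_pos (cost_nonempty (p := p) o μ) (half_pos hε)
  obtain ⟨t, ht, ht'⟩ := Real.lt_sInf_add_pos (cost_nonempty (p := p) o ν) (half_pos hε)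
  have h1 : s + t ∈ Cost p (pz o (μ + ν)) := by
    rw [map_add]
    exact cost_add hs ht
  have h2 := csInf_le (cost_bdd _) h1
  unfold q
  linarith

theorem q_smul_le (o : M) (hp : 0 < p) (c : ℝ) (μ : M →₀ ℝ) :
    q p o (c • μ) ≤ |c| ^ p * q p o μ := by
  rcases eq_or_ne c 0 with rfl | hc
  · rw [zero_smul, abs_zero, Real.zero_rpow hp.ne', zero_mul]
    unfold q
    rw [map_zero]
    exact csInf_le (cost_bdd _) cost_zero
  · have hc' : 0 < |c| ^ p := by positivity
    rw [← div_le_iff₀' hc']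
    refine le_csInf (cost_nonempty o μ) fun t ht => ?_
    rw [div_le_iff₀' hc']
    refine csInf_le (cost_bdd _) ?_
    rw [map_smul]
    exact cost_smul c ht

theorem q_smul (o : M) (hp : 0 < p) (c : ℝ) (μ : M →₀ ℝ) :
    q p o (c • μ) = |c| ^ p * q p o μ := by
  refine le_antisymm (q_smul_le o hp c μ) ?_
  rcases eq_or_ne c 0 with rfl | hc
  · rw [abs_zero, Real.zero_rpow hp.ne', zero_mul]
    exact q_nonneg o _
  · have h1 := q_smul_le o hp c⁻¹ (c • μ)
    rw [smul_smul, inv_mul_cancel₀ hc, one_smul, abs_inv, Real.inv_rpow (abs_nonneg _)] at h1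
    have hc' : 0 < |c| ^ p := by positivity
    calc |c| ^ p * q p o μ ≤ |c| ^ p * ((|c| ^ p)⁻¹ * q p o (c • μ)) := by gcongr
      _ = q p o (c • μ) := by rw [mul_inv_cancel_left₀ hc'.ne']

end cost

/-! ### The universal property -/

/-- `(F, N, δ)` is the Lipschitz free `p`-space over the metric space `M` with the base point `o`: `F` is a
`p`-Banach space with the `p`-norm `N`, `δ o = 0`, `δ` is Lipschitz with the constant `1`, the linear span of
`δ(M)` is dense, and for every `p`-Banach space `X` and every Lipschitz map `f : M → X` with `f o = 0` there is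
exactly one bounded linear map `T : F → X` with `T ∘ δ = f`, and the norm of `T` is the Lipschitz
constant of `f` (they have the same upper bounds). -/
structure IsFree (p : ℝ) {M : Type u} [MetricSpace M] (o : M) {F : Type u} [AddCommGroup F] [Module ℝ F]
    (N : F → ℝ) (δ : M → F) : Prop where
  pnorm : PNorm p N
  complete : Complete N
  base : δ o = 0
  lip : ∀ u v, N (δ u - δ v) ≤ dist u v
  dense : ∀ z : F, ∀ ε > 0, ∃ y ∈ Submodule.span ℝ (range δ), N (z - y) < ε
  univ : ∀ (X : Type u) [AddCommGroup X] [Module ℝ X] (N' : X → ℝ), PNorm p N' → Complete N' →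
    ∀ f : M → X, f o = 0 → (∃ C : ℝ, ∀ u v, N' (f u - f v) ≤ C * dist u v) →
    ∃ T : F →ₗ[ℝ] X, (∀ x, T (δ x) = f x) ∧
      (∀ C : ℝ, 0 ≤ C → ((∀ z, N' (T z) ≤ C * N z) ↔ ∀ u v, N' (f u - f v) ≤ C * dist u v)) ∧
      ∀ T' : F →ₗ[ℝ] X, (∀ x, T' (δ x) = f x) → (∃ C : ℝ, ∀ z, N' (T' z) ≤ C * N z) → T' = T

section bridge

variable {p : ℝ} {M : Type u} [MetricSpace M] {o : M} {F : Type u} [AddCommGroup F] [Module ℝ F]
  {N : F → ℝ} {δ : M → F}

theorem sum_le (hp : 0 < p) (hN : PNorm p N) {n : ℕ} (b : Fin n → ℝ) (w : Fin n → F) :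
    N (∑ j, b j • w j) ^ p ≤ ∑ j, |b j| ^ p * N (w j) ^ p := by
  classical
  have h0 : N 0 = 0 := (hN.zero 0).2 rfl
  have key : ∀ s : Finset (Fin n), N (∑ j ∈ s, b j • w j) ^ p ≤ ∑ j ∈ s, |b j| ^ p * N (w j) ^ p := by
    intro s
    induction s using Finset.induction_on with
    | empty => simp [h0, Real.zero_rpow hp.ne']
    | insert a s ha ih =>
      rw [Finset.sum_insert ha, Finset.sum_insert ha]
      refine (hN.add _ _).trans (add_le_add ?_ ih)
      rw [hN.smul, Real.mul_rpow (abs_nonneg _) (hN.nonneg _)]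
  exact key Finset.univ

theorem lin_single (x : M) : Finsupp.linearCombination ℝ δ (Finsupp.single x (1:ℝ)) = δ x := by
  rw [Finsupp.linearCombination_single, one_smul]

theorem glb (hp : 0 < p) (h : IsFree p o N δ) (μ : M →₀ ℝ) (hμ : μ.sum (fun _ a => a) = 0) :
    IsGLB (Cost p μ) (N (Finsupp.linearCombination ℝ δ μ) ^ p) := by
  constructor
  · rintro t ⟨n, b, u, v, rfl, rfl⟩
    have e : Finsupp.linearCombination ℝ δ
        (∑ j, b j • (Finsupp.single (u j) (1:ℝ) - Finsupp.single (v j) (1:ℝ))) =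
        ∑ j, b j • (δ (u j) - δ (v j)) := by
      rw [map_sum]
      refine Finset.sum_congr rfl fun j _ => ?_
      rw [map_smul, map_sub, lin_single, lin_single]
    rw [e]
    refine (sum_le hp h.pnorm _ _).trans (Finset.sum_le_sum fun j _ => ?_)
    have h1 : N (δ (u j) - δ (v j)) ^ p ≤ dist (u j) (v j) ^ p :=
      Real.rpow_le_rpow (h.pnorm.nonneg _) (h.lip _ _) hp.le
    gcongr
  · intro c hc
    obtain ⟨X, i1, i2, N', j, hN', hc', hj⟩ :=
      exists_compl p hp (q p o) (q_add o) (fun c μ => q_smul o hp c μ)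
    have hj0 : ∀ ν : M →₀ ℝ, q p o ν = 0 → j ν = 0 := by
      intro ν hν
      rw [← hN'.zero]
      have := hj ν
      rw [hν, Real.rpow_eq_zero (hN'.nonneg _) hp.ne'] at this
      exact this
    have hlip : ∀ u v, N' (j (Finsupp.single u 1) - j (Finsupp.single v 1)) ≤ 1 * dist u v := by
      intro u v
      rw [← map_sub, one_mul]
      have h1 : N' (j (Finsupp.single u (1:ℝ) - Finsupp.single v (1:ℝ))) ^ p ≤ dist u v ^ p := by
        rw [hj]
        unfold q
        refine csInf_le (cost_bdd _) ⟨1, fun _ => 1, fun _ => u, fun _ => v, ?_, by simp⟩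
        rw [pz_of_mass]
        · simp
        · rw [Finsupp.sum_sub_index (fun _ _ _ => rfl)]
          simp
      exact (Real.rpow_le_rpow_iff (hN'.nonneg _) dist_nonneg hp).1 h1
    have hbase : j (Finsupp.single o (1:ℝ)) = 0 := by
      apply hj0
      have : pz o (Finsupp.single o (1:ℝ)) = 0 := by
        unfold pz
        rw [Finsupp.linearCombination_single, sub_self, smul_zero]
      unfold q
      rw [this]
      exact le_antisymm (csInf_le (cost_bdd _) cost_zero) (Real.sInf_nonneg fun _ h => cost_nonneg h)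
    obtain ⟨T, hT1, hT2, -⟩ := h.univ X N' hN' hc' (fun x => j (Finsupp.single x 1)) hbase ⟨1, hlip⟩
    have hT3 := (hT2 1 zero_le_one).2 hlip
    have hT4 : T (Finsupp.linearCombination ℝ δ μ) = j μ := by
      have e : T.comp (Finsupp.linearCombination ℝ δ) = j := by
        ext x
        simp [hT1]
      exact LinearMap.congr_fun e μ
    have h5 : q p o μ ≤ N (Finsupp.linearCombination ℝ δ μ) ^ p := by
      rw [← hj, ← hT4]
      refine Real.rpow_le_rpow (hN'.nonneg _) ?_ hp.le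
      have := hT3 (Finsupp.linearCombination ℝ δ μ)
      rwa [one_mul] at this
    refine le_trans ?_ h5
    unfold q
    rw [pz_of_mass hμ]
    refine le_csInf ?_ hc
    have := cost_nonempty (p := p) o μ
    rwa [pz_of_mass hμ] at this

theorem dense' (h : IsFree p o N δ) (z : F) (ε : ℝ) (hε : 0 < ε) :
    ∃ μ : M →₀ ℝ, μ.sum (fun _ a => a) = 0 ∧ N (z - Finsupp.linearCombination ℝ δ μ) < ε := by
  obtain ⟨y, hy, hz⟩ := h.dense z ε hε
  rw [Finsupp.mem_span_range_iff_exists_finsupp] at hy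
  obtain ⟨c, hc⟩ := hy
  refine ⟨pz o c, mass_pz o c, ?_⟩
  have e : Finsupp.linearCombination ℝ δ (pz o c) = y := by
    have e1 : (Finsupp.linearCombination ℝ δ).comp (pz o) = Finsupp.linearCombination ℝ δ := by
      ext x
      simp [pz, h.base]
    have e2 := LinearMap.congr_fun e1 c
    rw [LinearMap.comp_apply] at e2
    rw [e2, Finsupp.linearCombination_apply]
    exact hc
  rw [e]
  exact hz

end bridge

/-- The theorem for bounded maps `T : X → F`, `S : F → X` with `S (T x) = x`. -/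
theorem main {p : ℝ} (hp0 : 0 < p) (hp1 : p < 1) (CT CS : ℝ) :
    ∃ n : ℕ, ∀ {M : Type u} [MetricSpace M] {o : M} {F : Type u} [AddCommGroup F] [Module ℝ F]
      {N : F → ℝ} {δ : M → F}, IsFree p o N δ → ∀ {X : Type v} [NormedAddCommGroup X]
      [NormedSpace ℝ X] (T : X →ₗ[ℝ] F) (S : F →ₗ[ℝ] X), (∀ x, N (T x) ≤ CT * ‖x‖) →
      (∀ y, ‖S y‖ ≤ CS * N y) → (∀ x, S (T x) = x) →
      FiniteDimensional ℝ X ∧ Module.finrank ℝ X ≤ n := by
  set CT' : ℝ := max CT 1 with hCT'
  set CS' : ℝ := max CS 1 with hCS'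
  have hCT1 : 1 ≤ CT' := le_max_right _ _
  have hCS1 : 1 ≤ CS' := le_max_right _ _
  have hCS0 : 0 < CS' := by linarith
  have hc0 : 0 < (1 / (16 * CS')) ^ p := by positivity
  obtain ⟨L, hL1, hL⟩ : ∃ L : ℕ, 1 ≤ L ∧
      4 * ((CT' * 2) ^ p + 1) < (L : ℝ) ^ (1 - p) * (1 / (16 * CS')) ^ p := by
    have h1 : Filter.Tendsto (fun n : ℕ => ((n : ℝ)) ^ (1 - p)) Filter.atTop Filter.atTop :=
      (tendsto_rpow_atTop (by linarith)).comp tendsto_natCast_atTop_atTop
    have h2 := h1.eventually_gt_atTop (4 * ((CT' * 2) ^ p + 1) / (1 / (16 * CS')) ^ p)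
    obtain ⟨L, hL⟩ := (h2.and (Filter.eventually_ge_atTop 1)).exists
    refine ⟨L, hL.2, ?_⟩
    have := hL.1
    rwa [div_lt_iff₀ hc0] at this
  refine ⟨QQ p CS' 2 ((CT' * 2) ^ p + 1 + 1) L, ?_⟩
  intro M _ o F _ _ N δ h X _ _ T S hT hS hST
  refine key' p hp0 hp1 CT' CS' hCT1 hCS1 L hL1 hL o N (Finsupp.linearCombination ℝ δ)
    h.pnorm.nonneg h.pnorm.zero h.pnorm.smul h.pnorm.add (glb hp0 h)
    (fun z ε hε => dense' h z ε hε) T S (fun x => (hT x).trans ?_) (fun y => (hS y).trans ?_) hST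
  · exact mul_le_mul_of_nonneg_right (le_max_left _ _) (norm_nonneg _)
  · exact mul_le_mul_of_nonneg_right (le_max_left _ _) (h.pnorm.nonneg _)

end Pool.Agent.Helper24.FP
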