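import Pool.Agent.S04810

/-!
# MP_5e7086_an: a uniform bound for the dimension

The proof in `Pool.Agent.S04810` uses only finitely many vectors of the Banach space `X`, so the dimension
of `X` is bounded by a number which depends on `p` and the norms of the two maps only.
-/

set_option autoImplicit false

open Filter Topology Set

namespace Pool.Agent.Helper24.FP

theorem free_set' (L Q Q1 : ℕ) (hL : 1 ≤ L) (Bad : Finset ℕ → ℕ → Prop)
    (hBad : ∀ D : Finset ℕ, D.card = L - 1 → ∀ I : Finset ℕ, (∀ n ∈ I, n < Q ∧ n ∉ D ∧ Bad D n) → I.card ≤ Q1)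
    (hQ : L * Q1 + L ≤ Q) :
    ∃ A : Finset ℕ, A.card = L ∧ ∀ n ∈ A, ¬ Bad (A.erase n) n := by
  classical
  by_contra hcon
  push Not at hcon
  let T := Finset.range Q
  let P := Finset.powersetCard L T
  have hP : ∀ A ∈ P, ∃ n ∈ A, Bad (A.erase n) n := fun A hA => hcon A (Finset.mem_powersetCard.1 hA).2
  choose! f hf using hP
  let W := (Finset.powersetCard (L - 1) T).sigma (fun D => T.filter (fun n => n ∉ D ∧ Bad D n))
  have hmap : P.card ≤ W.card := by
    refine Finset.card_le_card_of_injOn (fun A => (⟨A.erase (f A), f A⟩ : (_ : Finset ℕ) × ℕ)) ?_ ?_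
    · intro A hA
      have hA' := Finset.mem_powersetCard.1 (Finset.mem_coe.1 hA)
      obtain ⟨h1, h2⟩ := hf A (Finset.mem_coe.1 hA)
      simp only [W, Finset.coe_sigma, Set.mem_sigma_iff, Finset.mem_coe, Finset.mem_powersetCard,
        Finset.mem_filter]
      refine ⟨⟨(Finset.erase_subset _ _).trans hA'.1, ?_⟩, hA'.1 h1, Finset.notMem_erase _ _, h2⟩
      rw [Finset.card_erase_of_mem h1, hA'.2]
    · intro A hA B hB hAB
      obtain ⟨h1, h2⟩ := hf A (Finset.mem_coe.1 hA)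
      obtain ⟨h3, h4⟩ := hf B (Finset.mem_coe.1 hB)
      simp only [Sigma.mk.injEq, heq_eq_eq] at hAB
      rw [← Finset.insert_erase h1, ← Finset.insert_erase h3, hAB.1, hAB.2]
  have hW : W.card ≤ (Q.choose (L - 1)) * Q1 := by
    rw [Finset.card_sigma]
    calc ∑ D ∈ Finset.powersetCard (L - 1) T, (T.filter (fun n => n ∉ D ∧ Bad D n)).card
        ≤ ∑ D ∈ Finset.powersetCard (L - 1) T, Q1 := by
          refine Finset.sum_le_sum fun D hD => ?_
          refine hBad D (Finset.mem_powersetCard.1 hD).2 _ ?_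
          intro n hn
          exact ⟨Finset.mem_range.1 (Finset.mem_filter.1 hn).1, (Finset.mem_filter.1 hn).2⟩
      _ = (Q.choose (L - 1)) * Q1 := by
          rw [Finset.sum_const, Finset.card_powersetCard, Finset.card_range, smul_eq_mul]
  have hPc : P.card = Q.choose L := by
    simp [P, T]
  have hch : Q.choose L * L = Q.choose (L - 1) * (Q - (L - 1)) := by
    have := Nat.choose_succ_right_eq Q (L - 1)
    rwa [Nat.sub_add_cancel hL] at this
  have hpos : 0 < Q.choose (L - 1) := Nat.choose_pos (by omega)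
  have h1 : Q.choose L ≤ Q.choose (L - 1) * Q1 := by
    rw [← hPc]; exact hmap.trans hW
  have h2 : Q.choose (L - 1) * (Q - (L - 1)) ≤ Q.choose (L - 1) * (Q1 * L) := by
    rw [← hch, ← mul_assoc]
    exact Nat.mul_le_mul_right _ h1
  have h3 : Q - (L - 1) ≤ Q1 * L := Nat.le_of_mul_le_mul_left h2 hpos
  have h4 : Q1 * L = L * Q1 := mul_comm _ _
  omega

/-- The threshold of the decomposition. -/
noncomputable def tau (p CS K : ℝ) (L : ℕ) : ℝ := (1 / (8 * CS) / (4 * L) / K) ^ (1 / (1 - p))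

/-- The number of vectors used. -/
noncomputable def QQ (p CS R K : ℝ) (L : ℕ) : ℕ :=
  L * ⌊(4 * (R + 1) + 1) ^ (L * ⌊2 * (K / tau p CS K L ^ p) + 1⌋₊ + 1)⌋₊ + L

theorem exists_sep {X : Type*} [NormedAddCommGroup X] [NormedSpace ℝ X] (Q : ℕ)
    (h : ¬ (FiniteDimensional ℝ X ∧ Module.finrank ℝ X ≤ Q)) (n : ℕ) (hn : n ≤ Q) :
    ∃ x : ℕ → X, (∀ i, ‖x i‖ ≤ 2) ∧ ∀ i < n, ∀ j < n, i ≠ j → 1 ≤ ‖x i - x j‖ := by
  classical
  induction n with
  | zero => exact ⟨fun _ => 0, fun _ => by simp, fun i hi => absurd hi (Nat.not_lt_zero i)⟩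
  | succ n ih =>
    obtain ⟨x, h1, h2⟩ := ih (by omega)
    let V : Submodule ℝ X := Submodule.span ℝ (((Finset.range n).image x : Finset X) : Set X)
    have hV : FiniteDimensional ℝ V := FiniteDimensional.span_finset ℝ _
    have hVr : Module.finrank ℝ V ≤ n := by
      refine (finrank_span_finset_le_card _).trans ?_
      refine Finset.card_image_le.trans ?_
      rw [Finset.card_range]
    have hVt : ∃ y : X, y ∉ V := by
      by_contra hc
      push Not at hc
      have e : V = ⊤ := by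
        rw [eq_top_iff]
        intro y _
        exact hc y
      apply h
      rw [e] at hV hVr
      refine ⟨Module.Finite.equiv (Submodule.topEquiv (R := ℝ) (M := X)), ?_⟩
      rw [← finrank_top ℝ X]
      omega
    obtain ⟨x₀, h3, h4⟩ := riesz_lemma_of_norm_lt (c := (3 / 2 : ℝ)) (by norm_num) (R := 2)
      (by norm_num) (F := V) V.closed_of_finiteDimensional hVt
    refine ⟨Function.update x n x₀, fun i => ?_, fun i hi j hj hij => ?_⟩
    · rcases eq_or_ne i n with rfl | hi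
      · rw [Function.update_self]; exact h3
      · rw [Function.update_of_ne hi]; exact h1 i
    · have hmem : ∀ i, i < n → x i ∈ V := fun i hi =>
        Submodule.subset_span (Finset.mem_coe.2 (Finset.mem_image_of_mem _ (Finset.mem_range.2 hi)))
      rcases eq_or_ne i n with rfl | hi'
      · rw [Function.update_self, Function.update_of_ne (Ne.symm hij)]
        exact h4 _ (hmem j (by omega))
      · rcases eq_or_ne j n with rfl | hj'
        · rw [Function.update_self, Function.update_of_ne hij, norm_sub_rev]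
          exact h4 _ (hmem i (by omega))
        · rw [Function.update_of_ne hi', Function.update_of_ne hj']
          exact h2 i (by omega) j (by omega) hij

theorem core' {M : Type*} [MetricSpace M] {X : Type*} [NormedAddCommGroup X] [NormedSpace ℝ X]
    (p : ℝ) (hp0 : 0 < p) (hp1 : p < 1) (z0 : M) (W : (M →₀ ℝ) →ₗ[ℝ] X) (CS : ℝ) (hCS : 1 ≤ CS)
    (hW : ∀ u v, ‖W (Finsupp.single u (1:ℝ) - Finsupp.single v (1:ℝ))‖ ≤ CS * dist u v)
    (R : ℝ) (hR : 1 < R) (x : ℕ → X) (hxR : ∀ n, ‖x n‖ ≤ R)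
    (Q : ℕ) (hsep : ∀ m < Q, ∀ n < Q, m ≠ n → 1 ≤ ‖x m - x n‖)
    (K : ℝ) (hK : 0 < K) (L : ℕ) (hL : 1 ≤ L) (hQ : QQ p CS R K L ≤ Q)
    (μ : ℕ → M →₀ ℝ) (hμx : ∀ n, ‖x n - W (μ n)‖ ≤ 1 / 16)
    (hμ : ∀ n, ∃ (m : ℕ) (b : Fin m → ℝ) (u v : Fin m → M),
      μ n = ∑ j, b j • (Finsupp.single (u j) (1:ℝ) - Finsupp.single (v j) (1:ℝ)) ∧
      ∑ j, |b j| ^ p * dist (u j) (v j) ^ p ≤ K) :
    ∃ (A : Finset ℕ) (G : ℕ → M → ℝ), A.card = L ∧
      (∀ n ∈ A, ∀ u v, |G n u - G n v| ≤ 2 * dist u v) ∧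
      (∀ u, ∀ n ∈ A, ∀ m ∈ A, G n u ≠ 0 → G m u ≠ 0 → n = m) ∧
      ∀ n ∈ A, 1 / (16 * CS) ≤ Finsupp.linearCombination ℝ (G n) (∑ m ∈ A, μ m) := by
  classical
  have hCS0 : 0 < CS := by linarith
  have hL0 : (0:ℝ) < L := by exact_mod_cast hL
  have hL1 : (1:ℝ) ≤ L := by exact_mod_cast hL
  set c : ℝ := 1 / (8 * CS) with hc
  have hc0 : 0 < c := by positivity
  set ε : ℝ := c / (4 * L) with hε
  have hε0 : 0 < ε := by positivity
  have hp1' : 0 < 1 - p := by linarith
  -- threshold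
  obtain ⟨τ, hτ, hτε, hτd⟩ : ∃ τ : ℝ, 0 < τ ∧ τ ^ (1 - p) * K = ε ∧ τ = tau p CS K L := by
    refine ⟨(ε / K) ^ (1 / (1 - p)), by positivity, ?_, rfl⟩
    rw [← Real.rpow_mul (by positivity), one_div, inv_mul_cancel₀ hp1'.ne', Real.rpow_one]
    field_simp
  -- decomposition
  have hdec : ∀ n, ∃ (S : Finset M) (β σ : M →₀ ℝ), z0 ∈ S ∧
      (S.card : ℝ) ≤ 2 * (K / τ ^ p) + 1 ∧ (∀ z, z ∉ S → β z = 0) ∧ μ n = β + σ ∧
      ‖W σ‖ ≤ CS * ε ∧
      (∀ g : M → ℝ, (∀ u v, |g u - g v| ≤ 2 * dist u v) →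
        |Finsupp.linearCombination ℝ g σ| ≤ 2 * ε) := by
    intro n
    obtain ⟨m, b, u, v, hμn, hcost⟩ := hμ n
    obtain ⟨S, J, β, h1, h2, h3, h4, h5⟩ := Pool.Agent.S04810.decomp p hp0 hp1 z0 m b u v K τ hτ hcost
    rw [hτε] at h5
    refine ⟨S, β, _, h1, h2, h3, hμn.trans h4, ?_, ?_⟩
    · rw [map_sum]
      calc ‖∑ j ∈ J, W (b j • (Finsupp.single (u j) (1:ℝ) - Finsupp.single (v j) (1:ℝ)))‖
          ≤ ∑ j ∈ J, ‖W (b j • (Finsupp.single (u j) (1:ℝ) - Finsupp.single (v j) (1:ℝ)))‖ :=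
            norm_sum_le _ _
        _ ≤ ∑ j ∈ J, CS * (|b j| * dist (u j) (v j)) := by
            refine Finset.sum_le_sum fun j _ => ?_
            rw [map_smul, norm_smul, Real.norm_eq_abs]
            have := mul_le_mul_of_nonneg_left (hW (u j) (v j)) (abs_nonneg (b j))
            linarith
        _ = CS * ∑ j ∈ J, |b j| * dist (u j) (v j) := by rw [Finset.mul_sum]
        _ ≤ CS * ε := by gcongr
    · intro g hg
      rw [map_sum]
      calc |∑ j ∈ J, Finsupp.linearCombination ℝ g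
              (b j • (Finsupp.single (u j) (1:ℝ) - Finsupp.single (v j) (1:ℝ)))|
          ≤ ∑ j ∈ J, |Finsupp.linearCombination ℝ g
              (b j • (Finsupp.single (u j) (1:ℝ) - Finsupp.single (v j) (1:ℝ)))| :=
            Finset.abs_sum_le_sum_abs _ _
        _ ≤ ∑ j ∈ J, 2 * (|b j| * dist (u j) (v j)) := by
            refine Finset.sum_le_sum fun j _ => ?_
            rw [map_smul, map_sub, Finsupp.linearCombination_single,
              Finsupp.linearCombination_single, smul_eq_mul, smul_eq_mul, smul_eq_mul, one_mul,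
              one_mul, abs_mul]
            have := mul_le_mul_of_nonneg_left (hg (u j) (v j)) (abs_nonneg (b j))
            linarith
        _ = 2 * ∑ j ∈ J, |b j| * dist (u j) (v j) := by rw [Finset.mul_sum]
        _ ≤ 2 * ε := by gcongr
  choose S β σ hz0 hScard hβ hμβσ hWσ hgσ using hdec
  set k : ℕ := ⌊2 * (K / τ ^ p) + 1⌋₊ with hk
  have hSk : ∀ n, (S n).card ≤ k := fun n => Nat.le_floor (hScard n)
  have hxβ : ∀ n, ‖x n - W (β n)‖ ≤ 1 / 8 := by
    intro n
    have h1 : x n - W (β n) = (x n - W (μ n)) + W (σ n) := by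
      rw [hμβσ n, map_add]; abel
    have h2 : CS * ε ≤ 1 / 16 := by
      have : CS * ε = 1 / (32 * L) := by
        rw [hε, hc]; field_simp; norm_num
      rw [this, div_le_div_iff₀ (by positivity) (by norm_num)]
      linarith
    calc ‖x n - W (β n)‖ ≤ ‖x n - W (μ n)‖ + ‖W (σ n)‖ := by rw [h1]; exact norm_add_le _ _
      _ ≤ 1 / 16 + 1 / 16 := add_le_add (hμx n) ((hWσ n).trans h2)
      _ = 1 / 8 := by norm_num
  -- the finite-dimensional subspaces
  let SD : Finset ℕ → Finset M := fun D => insert z0 (D.biUnion S)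
  let V : Finset ℕ → Submodule ℝ X := fun D =>
    Submodule.span ℝ (((SD D).image (fun z => W (Finsupp.single z (1:ℝ))) : Finset X) : Set X)
  have hVfin : ∀ D, FiniteDimensional ℝ (V D) := fun D => FiniteDimensional.span_finset ℝ _
  have hVrank : ∀ D, Module.finrank ℝ (V D) ≤ D.card * k + 1 := by
    intro D
    refine (finrank_span_finset_le_card _).trans ?_
    refine Finset.card_image_le.trans ?_
    refine (Finset.card_insert_le _ _).trans ?_
    gcongr
    refine Finset.card_biUnion_le.trans ?_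
    refine (Finset.sum_le_sum (fun n _ => hSk n)).trans ?_
    rw [Finset.sum_const, smul_eq_mul]
  let Bad : Finset ℕ → ℕ → Prop := fun D n => ∃ v ∈ V D, ‖x n - v‖ ≤ 1 / 4
  set Q1 : ℕ := ⌊(4 * (R + 1) + 1) ^ (L * k + 1)⌋₊ with hQ1
  obtain ⟨A, hAcard, hA⟩ := free_set' L Q Q1 hL Bad (by
    intro D hD I hI
    refine Nat.le_floor ?_
    have hI' : ∀ n, ∃ v, n ∈ I → v ∈ V D ∧ ‖x n - v‖ ≤ 1 / 4 := by
      intro n
      by_cases hn : n ∈ I
      · obtain ⟨v, hv, hv'⟩ := (hI n hn).2.2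
        exact ⟨v, fun _ => ⟨hv, hv'⟩⟩
      · exact ⟨0, fun h => absurd h hn⟩
    choose v hv using hI'
    have := hVfin D
    refine Pool.Agent.S04810.packing (V D) (L * k + 1) ?_ (R + 1) (by linarith) I v (fun i hi => (hv i hi).1) ?_ ?_
    · refine (hVrank D).trans ?_
      rw [hD]
      gcongr
      omega
    · intro i hi
      have h1 := (hv i hi).2
      have h2 : v i = x i - (x i - v i) := by abel
      rw [h2]
      refine (norm_sub_le _ _).trans ?_
      have := hxR i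
      linarith
    · intro i hi j hj hij
      have h1 := (hv i hi).2
      have h2 := (hv j hj).2
      have h3 := hsep i (hI i hi).1 j (hI j hj).1 hij
      have h4 : x i - x j = (x i - v i) + (v i - v j) - (x j - v j) := by abel
      have h5 : ‖x i - x j‖ ≤ ‖x i - v i‖ + ‖v i - v j‖ + ‖x j - v j‖ := by
        rw [h4]
        refine (norm_sub_le _ _).trans ?_
        gcongr
        exact norm_add_le _ _
      linarith) (by rw [hQ1, hk, hτd]; exact hQ)
  -- the functionals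
  have hfun : ∀ n, ∃ g : M → ℝ, n ∈ A → (∀ u v, |g u - g v| ≤ dist u v) ∧
      (∀ z ∈ SD (A.erase n), g z = 0) ∧ c ≤ Finsupp.linearCombination ℝ g (β n) := by
    intro n
    by_cases hn : n ∈ A
    swap
    · exact ⟨fun _ => 0, fun h => absurd h hn⟩
    have hnb := hA n hn
    simp only [Bad] at hnb
    push Not at hnb
    obtain ⟨f, hf1, hf2, hf3⟩ := Pool.Agent.S04810.exists_sep_functional (V (A.erase n)) (W (β n)) (1 / 8) (by
      intro v hv
      have h1 := hnb v hv
      have h2 := hxβ n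
      have h3 : x n - v = (x n - W (β n)) + (W (β n) - v) := by abel
      have h4 : ‖x n - v‖ ≤ ‖x n - W (β n)‖ + ‖W (β n) - v‖ := by
        rw [h3]; exact norm_add_le _ _
      linarith)
    have hlin : ∀ ν : M →₀ ℝ, Finsupp.linearCombination ℝ
        (fun z => f (W (Finsupp.single z (1:ℝ))) / CS) ν = f (W ν) / CS := by
      intro ν
      induction ν using Finsupp.induction_linear with
      | zero => simp
      | add a b ha hb => rw [map_add, ha, hb, map_add, map_add, add_div]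
      | single a b =>
        rw [Finsupp.linearCombination_single, smul_eq_mul]
        have : Finsupp.single a b = b • Finsupp.single a (1:ℝ) := by simp
        rw [this, map_smul, map_smul, smul_eq_mul, mul_div_assoc]
    refine ⟨fun z => f (W (Finsupp.single z (1:ℝ))) / CS, fun _ => ⟨?_, ?_, ?_⟩⟩
    · intro u v
      rw [← sub_div, ← map_sub, ← map_sub, abs_div, abs_of_pos hCS0, div_le_iff₀ hCS0]
      refine (hf1 _).trans ?_
      rw [mul_comm]
      exact hW u v
    · intro z hz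
      have : f (W (Finsupp.single z (1:ℝ))) = 0 := by
        apply hf2
        apply Submodule.subset_span
        rw [Finset.mem_coe]
        exact Finset.mem_image_of_mem _ hz
      simp [this]
    · rw [hlin, hc, le_div_iff₀ hCS0]
      refine le_trans (le_of_eq ?_) hf3
      field_simp
  choose g hg using hfun
  obtain ⟨G, hG1, hG2, hG3, hG4⟩ := Pool.Agent.S04810.bump A S z0 hz0 (fun n => (SD (A.erase n) : Set M))
    (fun n => by simp [SD]) (fun n m hm hmn z hz => by
      simp only [SD, Finset.coe_insert, Finset.coe_biUnion, Set.mem_insert_iff, Set.mem_iUnion,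
        Finset.mem_coe]
      exact Or.inr ⟨m, Finset.mem_erase.2 ⟨hmn, hm⟩, hz⟩) g (fun n hn => (hg n hn).1)
    (fun n hn z hz => (hg n hn).2.1 z (by simpa using hz))
  refine ⟨A, G, hAcard, hG1, hG4, ?_⟩
  intro n hn
  have hcomp : ∀ m ∈ A, Finsupp.linearCombination ℝ (G n) (β m) = 
      if m = n then Finsupp.linearCombination ℝ (g n) (β n) else 0 := by
    intro m hm
    by_cases hmn : m = n
    · rw [if_pos hmn, hmn, Finsupp.linearCombination_apply, Finsupp.linearCombination_apply]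
      refine Finsupp.sum_congr fun z hz => ?_
      have : z ∈ S n := by
        by_contra hzS
        exact (Finsupp.mem_support_iff.1 hz) (hβ n z hzS)
      rw [hG2 n hn z this]
    · rw [if_neg hmn, Finsupp.linearCombination_apply]
      refine Finset.sum_eq_zero fun z hz => ?_
      have : z ∈ S m := by
        by_contra hzS
        exact (Finsupp.mem_support_iff.1 hz) (hβ m z hzS)
      show (β m) z • G n z = 0
      rw [hG3 n hn m hm hmn z this, smul_zero]
  have hsum : Finsupp.linearCombination ℝ (G n) (∑ m ∈ A, μ m) =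
      Finsupp.linearCombination ℝ (g n) (β n) + ∑ m ∈ A, Finsupp.linearCombination ℝ (G n) (σ m) := by
    rw [map_sum]
    have h1 : ∀ m ∈ A, Finsupp.linearCombination ℝ (G n) (μ m) =
        (if m = n then Finsupp.linearCombination ℝ (g n) (β n) else 0) +
          Finsupp.linearCombination ℝ (G n) (σ m) := by
      intro m hm
      rw [hμβσ m, map_add, hcomp m hm]
    rw [Finset.sum_congr rfl h1, Finset.sum_add_distrib, Finset.sum_ite_eq' A n, if_pos hn]
  have h2 : |∑ m ∈ A, Finsupp.linearCombination ℝ (G n) (σ m)| ≤ L * (2 * ε) := by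
    refine (Finset.abs_sum_le_sum_abs _ _).trans ?_
    refine (Finset.sum_le_sum (fun m _ => hgσ m (G n) (hG1 n hn))).trans ?_
    rw [Finset.sum_const, hAcard, nsmul_eq_mul]
  have h3 : (L:ℝ) * (2 * ε) = c / 2 := by
    rw [hε]; field_simp; norm_num
  have h4 : 1 / (16 * CS) = c / 2 := by
    rw [hc]; field_simp; norm_num
  have h5 := (hg n hn).2.2
  rw [hsum, h4]
  rw [h3, abs_le] at h2
  linarith [h2.1]

theorem key' (p : ℝ) (hp0 : 0 < p) (hp1 : p < 1) (CT' CS' : ℝ) (hCT1 : 1 ≤ CT') (hCS1 : 1 ≤ CS')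
    (L : ℕ) (hL1 : 1 ≤ L) (hL : 4 * ((CT' * 2) ^ p + 1) < (L : ℝ) ^ (1 - p) * (1 / (16 * CS')) ^ p)
    {M : Type*} [MetricSpace M] (z0 : M)
    {F : Type*} [AddCommGroup F] [Module ℝ F] (N : F → ℝ) (ι : (M →₀ ℝ) →ₗ[ℝ] F)
    (hN0 : ∀ x, 0 ≤ N x) (hNz : ∀ x, N x = 0 ↔ x = 0)
    (hNs : ∀ (c : ℝ) (x : F), N (c • x) = |c| * N x)
    (hNt : ∀ x y, N (x + y) ^ p ≤ N x ^ p + N y ^ p)
    (hGLB : ∀ μ : M →₀ ℝ, μ.sum (fun _ a => a) = 0 →
         IsGLB {t : ℝ | ∃ (n : ℕ) (b : Fin n → ℝ) (u v : Fin n → M),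
             μ = ∑ j, b j • (Finsupp.single (u j) (1:ℝ) - Finsupp.single (v j) (1:ℝ)) ∧
             t = ∑ j, |b j| ^ p * dist (u j) (v j) ^ p} (N (ι μ) ^ p))
    (hdense : ∀ z : F, ∀ ε > 0, ∃ μ : M →₀ ℝ, μ.sum (fun _ a => a) = 0 ∧ N (z - ι μ) < ε)
    {X : Type*} [NormedAddCommGroup X] [NormedSpace ℝ X]
    (T : X →ₗ[ℝ] F) (S : F →ₗ[ℝ] X) (hT' : ∀ x, N (T x) ≤ CT' * ‖x‖)
    (hS' : ∀ y, ‖S y‖ ≤ CS' * N y) (hST : ∀ x, S (T x) = x) :
    FiniteDimensional ℝ X ∧ Module.finrank ℝ X ≤ QQ p CS' 2 ((CT' * 2) ^ p + 1 + 1) L := by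
  classical
  by_contra hcon
  obtain ⟨x, hxR, hsep⟩ := exists_sep _ hcon _ le_rfl
  have hCT0 : 0 < CT' := by linarith
  have hCS0 : 0 < CS' := by linarith
  set B : ℝ := (CT' * 2) ^ p + 1 with hB
  have hB0 : 0 < B := by positivity
  set c : ℝ := 1 / (16 * CS') with hc
  have hc0 : 0 < c := by positivity
  have hL0 : (0:ℝ) < L := by exact_mod_cast hL1
  have hLge : (1:ℝ) ≤ L := by exact_mod_cast hL1
  -- approximation parameter
  obtain ⟨η, hη0, hη1, hη2⟩ : ∃ η : ℝ, 0 < η ∧ CS' * η ≤ 1 / 16 ∧ η ^ p ≤ 1 / L := by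
    refine ⟨min (1 / (16 * CS')) ((1 / L) ^ (1 / p)), by positivity, ?_, ?_⟩
    · calc CS' * min (1 / (16 * CS')) ((1 / (L:ℝ)) ^ (1 / p)) ≤ CS' * (1 / (16 * CS')) := by
            gcongr
            exact min_le_left _ _
        _ = 1 / 16 := by field_simp
    · calc (min (1 / (16 * CS')) ((1 / (L:ℝ)) ^ (1 / p))) ^ p ≤ ((1 / (L:ℝ)) ^ (1 / p)) ^ p := by
            refine Real.rpow_le_rpow (by positivity) (min_le_right _ _) hp0.le
        _ = 1 / L := by
            rw [← Real.rpow_mul (by positivity), one_div p, inv_mul_cancel₀ hp0.ne', Real.rpow_one]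
  have hηp : η ^ p ≤ 1 := hη2.trans (by rw [div_le_one hL0]; exact hLge)
  -- approximating measures
  have happ : ∀ n, ∃ μ : M →₀ ℝ, μ.sum (fun _ a => a) = 0 ∧ N (T (x n) - ι μ) < η :=
    fun n => hdense (T (x n)) η hη0
  choose μ hμ0 hμη using happ
  have hNneg : ∀ y, N (-y) = N y := by
    intro y
    have := hNs (-1) y
    simpa using this
  have hμN : ∀ n, N (ι (μ n)) ^ p ≤ B := by
    intro n
    have h1 : ι (μ n) = T (x n) + -(T (x n) - ι (μ n)) := by abel
    have h2 : N (T (x n)) ^ p ≤ (CT' * 2) ^ p := by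
      refine Real.rpow_le_rpow (hN0 _) ((hT' _).trans ?_) hp0.le
      gcongr
      exact hxR n
    have h3 : N (-(T (x n) - ι (μ n))) ^ p ≤ 1 := by
      rw [hNneg]
      exact (Real.rpow_le_rpow (hN0 _) (hμη n).le hp0.le).trans hηp
    calc N (ι (μ n)) ^ p = N (T (x n) + -(T (x n) - ι (μ n))) ^ p := by rw [← h1]
      _ ≤ _ := hNt _ _
      _ ≤ B := by rw [hB]; exact add_le_add h2 h3
  have hμrep : ∀ n, ∃ (m : ℕ) (b : Fin m → ℝ) (u v : Fin m → M),
      μ n = ∑ j, b j • (Finsupp.single (u j) (1:ℝ) - Finsupp.single (v j) (1:ℝ)) ∧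
      ∑ j, |b j| ^ p * dist (u j) (v j) ^ p ≤ B + 1 := by
    intro n
    have h1 : N (ι (μ n)) ^ p < B + 1 := by linarith [hμN n]
    obtain ⟨t, ⟨m, b, u, v, h2, h3⟩, h4⟩ := (isGLB_lt_iff (hGLB (μ n) (hμ0 n))).1 h1
    exact ⟨m, b, u, v, h2, by rw [← h3]; exact h4.le⟩
  have hμx : ∀ n, ‖x n - (S ∘ₗ ι) (μ n)‖ ≤ 1 / 16 := by
    intro n
    have h1 : x n - (S ∘ₗ ι) (μ n) = S (T (x n) - ι (μ n)) := by
      rw [map_sub, hST]; rfl
    rw [h1]
    refine (hS' _).trans (le_trans ?_ hη1)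
    gcongr
    exact (hμη n).le
  have hW : ∀ u v, ‖(S ∘ₗ ι) (Finsupp.single u (1:ℝ) - Finsupp.single v (1:ℝ))‖
      ≤ CS' * dist u v := by
    intro u v
    have h0 : (Finsupp.single u (1:ℝ) - Finsupp.single v (1:ℝ)).sum (fun _ a => a) = 0 := by
      rw [Finsupp.sum_sub_index (fun _ _ _ => rfl)]
      simp
    have h1 : N (ι (Finsupp.single u (1:ℝ) - Finsupp.single v (1:ℝ))) ^ p ≤ dist u v ^ p := by
      refine (hGLB _ h0).1 ⟨1, fun _ => 1, fun _ => u, fun _ => v, by simp, by simp⟩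
    have h2 : N (ι (Finsupp.single u (1:ℝ) - Finsupp.single v (1:ℝ))) ≤ dist u v :=
      (Real.rpow_le_rpow_iff (hN0 _) dist_nonneg hp0).1 h1
    refine (hS' _).trans ?_
    gcongr
  obtain ⟨A, G, hAcard, hG1, hG2, hG3⟩ := core' p hp0 hp1 z0 (S ∘ₗ ι) CS' hCS1 hW 2 one_lt_two x hxR _ hsep
    (B + 1) (by positivity) L hL1 le_rfl μ hμx hμrep
  -- the average
  set ν : M →₀ ℝ := (1 / (L:ℝ)) • ∑ m ∈ A, μ m with hν
  have hmass : ∀ ρ : M →₀ ℝ, ρ.sum (fun _ a => a) = Finsupp.linearCombination ℝ (fun _ => (1:ℝ)) ρ := by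
    intro ρ
    rw [Finsupp.linearCombination_apply]
    simp
  have hν0 : ν.sum (fun _ a => a) = 0 := by
    rw [hmass, hν, map_smul, map_sum]
    rw [Finset.sum_eq_zero (fun m _ => by rw [← hmass, hμ0 m]), smul_zero]
  have hlow : (L : ℝ) ^ (1 - p) * c ^ p ≤ ∑ n ∈ A, |Finsupp.linearCombination ℝ (G n) ν| ^ p := by
    have h1 : ∀ n ∈ A, ((1 / (L:ℝ)) * c) ^ p ≤ |Finsupp.linearCombination ℝ (G n) ν| ^ p := by
      intro n hn
      refine Real.rpow_le_rpow (by positivity) ?_ hp0.le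
      refine le_trans ?_ (le_abs_self _)
      rw [hν, map_smul, smul_eq_mul]
      gcongr
      exact hG3 n hn
    have h2 := Finset.sum_le_sum h1
    rw [Finset.sum_const, hAcard, nsmul_eq_mul] at h2
    refine le_trans (le_of_eq ?_) h2
    rw [Real.mul_rpow (by positivity) hc0.le, Real.div_rpow zero_le_one hL0.le, Real.one_rpow,
      Real.rpow_sub hL0, Real.rpow_one]
    ring
  have hup : (∑ n ∈ A, |Finsupp.linearCombination ℝ (G n) ν| ^ p) / 4 ≤ N (ι ν) ^ p := by
    refine (hGLB ν hν0).2 ?_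
    rintro t ⟨m, b, u, v, h1, rfl⟩
    rw [div_le_iff₀ (by norm_num)]
    have h2 : ∀ n ∈ A, |Finsupp.linearCombination ℝ (G n) ν| ^ p ≤
        ∑ j, |b j| ^ p * |G n (u j) - G n (v j)| ^ p := by
      intro n _
      rw [h1, map_sum]
      refine (Pool.Agent.S04810.abs_sum_rpow_le _ _ p hp0 hp1.le).trans (le_of_eq ?_)
      refine Finset.sum_congr rfl fun j _ => ?_
      rw [map_smul, map_sub, Finsupp.linearCombination_single, Finsupp.linearCombination_single,
        smul_eq_mul, smul_eq_mul, smul_eq_mul, one_mul, one_mul, abs_mul,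
        Real.mul_rpow (abs_nonneg _) (abs_nonneg _)]
    refine (Finset.sum_le_sum h2).trans ?_
    rw [Finset.sum_comm, Finset.sum_mul]
    refine Finset.sum_le_sum fun j _ => ?_
    rw [← Finset.mul_sum, mul_assoc]
    gcongr
    rw [mul_comm]
    exact Pool.Agent.S04810.lp_bound A G p hp0 hp1.le hG1 hG2 (u j) (v j)
  -- upper bound of the average
  have hNsum : ∀ (s : Finset ℕ) (y : ℕ → F), N (∑ n ∈ s, y n) ^ p ≤ ∑ n ∈ s, N (y n) ^ p := by
    intro s y
    induction s using Finset.induction_on with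
    | empty =>
      have : N (0 : F) = 0 := (hNz 0).2 rfl
      simp [this, Real.zero_rpow hp0.ne']
    | insert a s ha ih =>
      rw [Finset.sum_insert ha, Finset.sum_insert ha]
      exact (hNt _ _).trans (by gcongr)
  have hNν : N (ι ν) ^ p ≤ B := by
    set xb : X := (1 / (L:ℝ)) • ∑ n ∈ A, x n with hxb
    have h1 : ι ν = T xb + ∑ n ∈ A, (-(1 / (L:ℝ))) • (T (x n) - ι (μ n)) := by
      rw [hν, hxb, map_smul, map_smul, map_sum, map_sum, ← Finset.smul_sum, Finset.sum_sub_distrib,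
        neg_smul, smul_sub]
      abel
    have hxbn : ‖xb‖ ≤ 2 := by
      rw [hxb, norm_smul, Real.norm_of_nonneg (by positivity)]
      have h2 : ‖∑ n ∈ A, x n‖ ≤ L * 2 := by
        refine (norm_sum_le _ _).trans ?_
        refine (Finset.sum_le_sum (fun n _ => hxR n)).trans ?_
        rw [Finset.sum_const, hAcard, nsmul_eq_mul]
      calc 1 / (L:ℝ) * ‖∑ n ∈ A, x n‖ ≤ 1 / (L:ℝ) * (L * 2) := by gcongr
        _ = 2 := by field_simp
    have h2 : N (T xb) ^ p ≤ (CT' * 2) ^ p := by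
      refine Real.rpow_le_rpow (hN0 _) ((hT' _).trans ?_) hp0.le
      gcongr
    have h3 : N (∑ n ∈ A, (-(1 / (L:ℝ))) • (T (x n) - ι (μ n))) ^ p ≤ 1 := by
      refine (hNsum _ _).trans ?_
      have h4 : ∀ n ∈ A, N ((-(1 / (L:ℝ))) • (T (x n) - ι (μ n))) ^ p ≤ 1 / L := by
        intro n _
        rw [hNs, abs_neg, abs_of_nonneg (by positivity)]
        refine le_trans (Real.rpow_le_rpow (by have := hN0 (T (x n) - ι (μ n)); positivity) ?_ hp0.le) hη2
        calc 1 / (L:ℝ) * N (T (x n) - ι (μ n)) ≤ 1 * N (T (x n) - ι (μ n)) := by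
              gcongr
              · exact hN0 _
              · rw [div_le_one hL0]; exact hLge
          _ ≤ η := by rw [one_mul]; exact (hμη n).le
      refine (Finset.sum_le_sum h4).trans ?_
      rw [Finset.sum_const, hAcard, nsmul_eq_mul]
      exact le_of_eq (by field_simp)
    calc N (ι ν) ^ p = N (T xb + ∑ n ∈ A, (-(1 / (L:ℝ))) • (T (x n) - ι (μ n))) ^ p := by rw [h1]
      _ ≤ _ := hNt _ _
      _ ≤ B := by rw [hB]; exact add_le_add h2 h3
  linarith

end Pool.Agent.Helper24.FP
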